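import Mathlib

/-!
# Simple spanning alternating paths of bicoloured point sets of the plane
-/

set_option autoImplicit false

namespace Pool.Agent.Work.MP_c6c039_lc

/-- The list `l` of points is (the vertex sequence of) a simple spanning alternating path of the
bicoloured point set with the red points `R` and the blue points `B`: its vertices are distinct and
they are all the points, every edge joins a red and a blue point, and two edges meet only if they
are consecutive, and then only in their common end point. -/
structure IsPath (R B : Finset (ℝ × ℝ)) (l : List (ℝ × ℝ)) : Prop where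
  nodup : l.Nodup
  span : ∀ p, p ∈ l ↔ p ∈ R ∪ B
  alt : ∀ (i : ℕ) (h : i + 1 < l.length), l[i] ∈ R ∧ l[i + 1] ∈ B ∨ l[i] ∈ B ∧ l[i + 1] ∈ R
  simp : ∀ (i j : ℕ) (hij : i < j) (hj : j + 1 < l.length),
    segment ℝ l[i] l[i + 1] ∩ segment ℝ l[j] l[j + 1] = if j = i + 1 then {l[j]} else ∅

end Pool.Agent.Work.MP_c6c039_lc
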