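import Pool.Agent.Work.MP_c6c039_lc.Peel4
import Pool.Agent.Work.MP_c6c039_lc.Defs

set_option autoImplicit false
set_option linter.unusedSectionVars false

namespace Pool.Agent.Work.MP_c6c039_lc

section start

variable {α : Type} [DecidableEq α] {x y : α → ℝ} {col : α → Bool}

/-- The whole set can be peeled. -/
theorem peel_all (P : Finset α) (h : Pre x y col P) (hbal : num col P true = num col P false) :
    ∃ l : List α, l.Nodup ∧ (∀ p, p ∈ l ↔ p ∈ P) ∧ Peel x y l ∧
      List.IsChain (fun a b => col a ≠ col b) l := by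
  have hcnt : ∀ c ∈ P, num col (P.erase c) (!col c) = num col (P.erase c) (col c) ∨
      num col (P.erase c) (!col c) = num col (P.erase c) (col c) + 1 := by
    intro c hc
    right
    rw [num_erase_same hc, num_erase_ne (by cases col c <;> simp)]
    cases col c
    · simpa using hbal
    · simpa using hbal.symm
  have hfin : ∀ c ∈ P, Ext x y col (P.erase c) c → ∃ l : List α, l.Nodup ∧
      (∀ p, p ∈ l ↔ p ∈ P) ∧ Peel x y l ∧ List.IsChain (fun a b => col a ≠ col b) l := by
    rintro c hc ⟨l, h1, h2, h3, h4⟩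
    refine ⟨c :: l, ?_, ?_, h3, h4⟩
    · rw [List.nodup_cons]
      exact ⟨fun hcl => Finset.notMem_erase c P ((h2 c).1 hcl), h1⟩
    · intro q
      rw [List.mem_cons, h2]
      constructor
      · rintro (rfl | hq)
        · exact hc
        · exact Finset.mem_of_mem_erase hq
      · intro hq
        by_cases hqc : q = c
        · exact Or.inl hqc
        · exact Or.inr (Finset.mem_erase.2 ⟨hqc, hq⟩)
  rcases P.eq_empty_or_nonempty with rfl | hne
  · exact ⟨[], List.nodup_nil, by simp, trivial, by simp⟩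
  have htot := num_total (col := col) (S := P) true
  simp only [Bool.not_true] at htot
  have hsmall : P.card ≤ 2 → ∃ l : List α, l.Nodup ∧
      (∀ p, p ∈ l ↔ p ∈ P) ∧ Peel x y l ∧ List.IsChain (fun a b => col a ≠ col b) l := by
    intro hc
    obtain ⟨c, hcP⟩ := hne
    refine hfin c hcP (ext_small (Finset.notMem_erase c P) ?_ (hcnt c hcP) ?_)
    · rw [Finset.insert_erase hcP]
      exact h.gp
    · rw [Finset.card_erase_of_mem hcP]
      omega
  by_cases hl : ∃ p ∈ P, x p < 0
  swap
  · push Not at hl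
    have hr : ∀ p ∈ P, 0 < x p := fun p hp => lt_of_le_of_ne (hl p hp) (h.x0 p hp).symm
    have : num col P true ≤ 1 := by
      unfold num
      rw [Finset.card_le_one]
      intro a ha b hb
      rw [Finset.mem_filter] at ha hb
      exact h.wr a ha.1 b hb.1 (hr a ha.1) (hr b hb.1) ha.2 hb.2
    exact hsmall (by omega)
  by_cases hr : ∃ p ∈ P, 0 < x p
  swap
  · push Not at hr
    have hr : ∀ p ∈ P, x p < 0 := fun p hp => lt_of_le_of_ne (hr p hp) (h.x0 p hp)
    have : num col P false ≤ 1 := by
      unfold num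
      rw [Finset.card_le_one]
      intro a ha b hb
      rw [Finset.mem_filter] at ha hb
      exact h.wl a ha.1 b hb.1 (hr a ha.1) (hr b hb.1) ha.2 hb.2
    exact hsmall (by omega)
  obtain ⟨u, hu, v, hv, hxu, hxv, hb⟩ := bridge_exists h.x0 hl hr
  have huv : u ≠ v := by
    rintro rfl
    linarith
  have hG : ∀ p ∈ P, p ≠ u → p ≠ v → ori x y u v p < 0 := fun p hp h1 h2 =>
    lt_of_le_of_ne (hb p hp) (h.gp u hu v hv p hp huv h2.symm h1.symm)
  cases hcv : col v
  · cases hcu : col u
    · refine hfin u hu (ext_main _ x y col _ u rfl (h.left hu hv hxu hxv hb (hcnt u hu) ?_ ?_))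
      · intro _ e he heu hxe hce
        exact absurd (h.wl e he u hu hxe hxu hce hcu) heu
      · intro h'
        rw [hcu] at h'
        exact absurd h' (by simp)
    · refine hfin u hu (ext_main _ x y col _ u rfl (h.left hu hv hxu hxv hb (hcnt u hu) ?_ ?_))
      · intro h'
        rw [hcu] at h'
        exact absurd h' (by simp)
      · intro _ f hf hfu hxf hcf
        have hfv : f ≠ v := by
          rintro rfl
          rw [hcv] at hcf
          exact absurd hcf (by simp)
        exact ⟨v, hv, huv.symm, hxv, hfv.symm, hG f hf hfu hfv⟩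
  · refine hfin v hv (ext_main _ x y col _ v rfl (h.right hu hv hxu hxv hb (hcnt v hv) ?_ ?_))
    · intro h'
      rw [hcv] at h'
      exact absurd h' (by simp)
    · intro _ f hf hfv hxf hcf
      exact absurd (h.wr f hf v hv hxf hxv hcf hcv) hfv

omit [DecidableEq α] in
theorem Peel.get {l : List α} (h : Peel x y l) : ∀ (i : ℕ) (hi : i + 1 < l.length),
    Step x y l[i] l[i + 1] {p | ∃ (k : ℕ) (hk : k < l.length), i + 1 < k ∧ l[k] = p} := by
  induction l with
  | nil => intro i hi; simp at hi
  | cons a l ih =>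
    cases l with
    | nil => intro i hi; simp at hi
    | cons b l =>
      intro i hi
      cases i with
      | zero =>
        refine h.1.mono ?_
        rintro p ⟨k, hk, hk1, rfl⟩
        obtain ⟨m, rfl⟩ : ∃ m, k = m + 2 := ⟨k - 2, by omega⟩
        simp only [List.getElem_cons_succ, Set.mem_setOf_eq]
        exact List.getElem_mem _
      | succ i =>
        have := ih h.2 i (by simpa using hi)
        simp only [List.getElem_cons_succ] at this ⊢
        refine this.mono ?_
        rintro p ⟨k, hk, hk1, rfl⟩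
        obtain ⟨m, rfl⟩ : ∃ m, k = m + 1 := ⟨k - 1, by omega⟩
        refine ⟨m, by simpa using hk, by omega, ?_⟩
        simp only [List.getElem_cons_succ]

end start

/-! ### Geometry -/

abbrev Pt := ℝ × ℝ

/-- the orientation of three points of the plane -/
def area (p q r : Pt) : ℝ := (q.1 - p.1) * (r.2 - p.2) - (q.2 - p.2) * (r.1 - p.1)

theorem collinear_of_area {p q r : Pt} (hpq : p ≠ q) (h : area p q r = 0) :
    Collinear ℝ ({p, q, r} : Set Pt) := by
  rw [collinear_iff_of_mem (p₀ := p) (by simp)]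
  refine ⟨q - p, ?_⟩
  intro s hs
  simp only [Set.mem_insert_iff, Set.mem_singleton_iff] at hs
  unfold area at h
  rcases hs with rfl | rfl | rfl
  · exact ⟨0, by simp⟩
  · exact ⟨1, by simp⟩
  · by_cases h1 : q.1 = p.1
    · have h2 : q.2 - p.2 ≠ 0 := by
        intro h2
        exact hpq (Prod.ext h1.symm (by linarith))
      refine ⟨(s.2 - p.2) / (q.2 - p.2), ?_⟩
      have h3 : s.1 = p.1 := by
        rw [h1, sub_self, zero_mul, zero_sub, neg_eq_zero, mul_eq_zero] at h
        rcases h with h | h
        · exact absurd h h2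
        · linarith
      apply Prod.ext
      · simp [h1, h3]
      · simp only [vadd_eq_add, Prod.snd_add, Prod.smul_snd, Prod.snd_sub, smul_eq_mul]
        field_simp
        ring
    · have h2 : q.1 - p.1 ≠ 0 := sub_ne_zero.2 h1
      refine ⟨(s.1 - p.1) / (q.1 - p.1), ?_⟩
      apply Prod.ext
      · simp only [vadd_eq_add, Prod.fst_add, Prod.smul_fst, Prod.fst_sub, smul_eq_mul]
        field_simp
        ring
      · simp only [vadd_eq_add, Prod.snd_add, Prod.smul_snd, Prod.snd_sub, smul_eq_mul]
        field_simp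
        linarith

theorem area_of_mem_segment {p q r : Pt} (h : p ∈ segment ℝ q r) : area p q r = 0 := by
  obtain ⟨s, t, -, -, hst, rfl⟩ := h
  obtain rfl : s = 1 - t := by linarith
  simp only [area, Prod.fst_add, Prod.snd_add, Prod.smul_fst, Prod.smul_snd, smul_eq_mul]
  ring

/-- the coordinates adapted to the line `a p.1 + b p.2 = c` -/
def cx (a b c : ℝ) (p : Pt) : ℝ := a * p.1 + b * p.2 - c

def cy (a b : ℝ) (p : Pt) : ℝ := a * p.2 - b * p.1

theorem ori_coord (a b c : ℝ) (p q r : Pt) :
    ori (cx a b c) (cy a b) p q r = (a ^ 2 + b ^ 2) * area p q r := by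
  unfold ori cx cy area
  ring

/-- A peeling step and a later edge. -/
theorem step_disjoint {a b c : ℝ} {p q r s : Pt} {T : Set Pt}
    (h : Step (cx a b c) (cy a b) p q T) (hr : r ∈ T) (hs : s ∈ T) (hq : area q r s ≠ 0) :
    segment ℝ p q ∩ segment ℝ r s = ∅ := by
  rw [Set.eq_empty_iff_forall_notMem]
  rintro z ⟨⟨t, t', ht, ht', htt, hz⟩, ⟨w, w', hw, hw', hww, hz'⟩⟩
  obtain ⟨A, B, C, h1, h2⟩ := h
  -- the functional along a combination
  have hlin : ∀ (u v : Pt) (m n : ℝ), m + n = 1 → A * cx a b c (m • u + n • v) +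
      B * cy a b (m • u + n • v) - C = m * (A * cx a b c u + B * cy a b u - C) +
        n * (A * cx a b c v + B * cy a b v - C) := by
    intro u v m n hmn
    obtain rfl : m = 1 - n := by linarith
    simp only [cx, cy, Prod.fst_add, Prod.snd_add, Prod.smul_fst, Prod.smul_snd, smul_eq_mul]
    ring
  have e1 := hlin p q t t' htt
  have e2 := hlin r s w w' hww
  rw [hz] at e1
  rw [hz'] at e2
  have hq0 : A * cx a b c q + B * cy a b q - C = 0 := by linarith
  rw [hq0, mul_zero, add_zero] at e1
  rcases h2 with ⟨h3, h4⟩ | ⟨h3, h4⟩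
  · have f1 := h4 r hr
    have f2 := h4 s hs
    have g1 := mul_nonneg hw (show 0 ≤ C - (A * cx a b c r + B * cy a b r) by linarith)
    have g2 := mul_nonneg hw' (show 0 ≤ C - (A * cx a b c s + B * cy a b s) by linarith)
    have g3 : t * (A * cx a b c p + B * cy a b p - C) ≤ 0 := by linarith
    have g4 : t = 0 := by
      rcases ht.eq_or_lt with h0 | h0
      · exact h0.symm
      · have := mul_pos h0 (show 0 < A * cx a b c p + B * cy a b p - C by linarith)
        linarith
    have hzq : z = q := by
      rw [← hz, g4]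
      have : t' = 1 := by linarith
      rw [this]
      simp
    apply hq
    apply area_of_mem_segment
    exact ⟨w, w', hw, hw', hww, by rw [hz', hzq]⟩
  · have f1 := h4 r hr
    have f2 := h4 s hs
    have g3 := mul_nonneg ht (show 0 ≤ A * cx a b c p + B * cy a b p - C by linarith)
    have g1 := mul_nonneg hw (show 0 ≤ C - (A * cx a b c r + B * cy a b r) by linarith)
    have g2 := mul_nonneg hw' (show 0 ≤ C - (A * cx a b c s + B * cy a b s) by linarith)
    rcases hw.eq_or_lt with h0 | h0
    · have : w' = 1 := by linarith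
      rw [← h0, this] at e2
      linarith
    · have := mul_pos h0 (show 0 < C - (A * cx a b c r + B * cy a b r) by linarith)
      linarith

/-- consecutive edges -/
theorem step_consecutive {p q r : Pt} (h : area p q r ≠ 0) :
    segment ℝ p q ∩ segment ℝ q r = {q} := by
  apply Set.eq_singleton_iff_unique_mem.2
  refine ⟨⟨right_mem_segment ℝ p q, left_mem_segment ℝ q r⟩, ?_⟩
  rintro z ⟨⟨t, t', ht, ht', htt, hz⟩, ⟨w, w', hw, hw', hww, hz'⟩⟩
  have h1 : area p q z = w' * area p q r := by
    obtain rfl : w = 1 - w' := by linarith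
    rw [← hz']
    simp only [area, Prod.fst_add, Prod.snd_add, Prod.smul_fst, Prod.smul_snd, smul_eq_mul]
    ring
  have h2 : area p q z = 0 := by
    obtain rfl : t = 1 - t' := by linarith
    rw [← hz]
    simp only [area, Prod.fst_add, Prod.snd_add, Prod.smul_fst, Prod.smul_snd, smul_eq_mul]
    ring
  have h3 : w' = 0 := by
    rw [h2] at h1
    rcases mul_eq_zero.1 h1.symm with h0 | h0
    · exact h0
    · exact absurd h0 h
  have h4 : w = 1 := by linarith
  rw [← hz', h3, h4]
  simp

theorem main (R B : Finset (ℝ × ℝ)) (hdisj : Disjoint R B) (hbal : R.card = B.card)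
    (hgp : ∀ p ∈ R ∪ B, ∀ q ∈ R ∪ B, ∀ r ∈ R ∪ B, p ≠ q → q ≠ r → p ≠ r →
      ¬ Collinear ℝ ({p, q, r} : Set (ℝ × ℝ)))
    (a b c : ℝ) (hab : a ≠ 0 ∨ b ≠ 0) (hline : ∀ p ∈ R ∪ B, a * p.1 + b * p.2 ≠ c)
    (hB : (B.filter fun p => a * p.1 + b * p.2 < c).card ≤ 1)
    (hR : (R.filter fun p => c < a * p.1 + b * p.2).card ≤ 1) :
    ∃ l : List (ℝ × ℝ), IsPath R B l := by
  classical
  have harea : ∀ p ∈ R ∪ B, ∀ q ∈ R ∪ B, ∀ r ∈ R ∪ B, p ≠ q → q ≠ r → p ≠ r →
      area p q r ≠ 0 := fun p hp q hq r hr h1 h2 h3 h4 =>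
    hgp p hp q hq r hr h1 h2 h3 (collinear_of_area h1 h4)
  have hpos : 0 < a ^ 2 + b ^ 2 := by
    rcases hab with h | h <;> positivity
  set col : Pt → Bool := fun p => decide (p ∈ R) with hcol
  have hcolR : ∀ p, col p = true ↔ p ∈ R := fun p => by simp [hcol]
  have hcolB : ∀ p ∈ R ∪ B, (col p = false ↔ p ∈ B) := by
    intro p hp
    simp only [hcol, decide_eq_false_iff_not]
    constructor
    · intro h
      rcases Finset.mem_union.1 hp with h' | h'
      · exact absurd h' h
      · exact h'
    · intro h h'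
      exact Finset.disjoint_left.1 hdisj h' h
  have hpre : Pre (cx a b c) (cy a b) col (R ∪ B) := by
    refine ⟨?_, ?_, ?_, ?_⟩
    · intro p hp q hq r hr h1 h2 h3
      rw [ori_coord]
      exact mul_ne_zero hpos.ne' (harea p hp q hq r hr h1 h2 h3)
    · intro p hp
      unfold cx
      exact sub_ne_zero.2 (hline p hp)
    · intro p hp q hq h1 h2 h3 h4
      rw [Finset.card_le_one] at hB
      unfold cx at h1 h2
      exact hB p (Finset.mem_filter.2 ⟨(hcolB p hp).1 h3, by linarith⟩) q
        (Finset.mem_filter.2 ⟨(hcolB q hq).1 h4, by linarith⟩)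
    · intro p hp q hq h1 h2 h3 h4
      rw [Finset.card_le_one] at hR
      unfold cx at h1 h2
      exact hR p (Finset.mem_filter.2 ⟨(hcolR p).1 h3, by linarith⟩) q
        (Finset.mem_filter.2 ⟨(hcolR q).1 h4, by linarith⟩)
  have hnR : num col (R ∪ B) true = R.card := by
    unfold num
    congr 1
    ext p
    rw [Finset.mem_filter, hcolR]
    constructor
    · exact fun h => h.2
    · exact fun h => ⟨Finset.mem_union_left _ h, h⟩
  have hnB : num col (R ∪ B) false = B.card := by
    unfold num
    congr 1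
    ext p
    rw [Finset.mem_filter]
    constructor
    · exact fun h => (hcolB p h.1).1 h.2
    · intro h
      have hp := Finset.mem_union_right R h
      exact ⟨hp, (hcolB p hp).2 h⟩
  obtain ⟨l, h1, h2, h3, h4⟩ := peel_all (R ∪ B) hpre (by rw [hnR, hnB, hbal])
  have hmem : ∀ (i : ℕ) (hi : i < l.length), l[i] ∈ R ∪ B := fun i hi =>
    (h2 _).1 (List.getElem_mem hi)
  have hne : ∀ (i j : ℕ) (hi : i < l.length) (hj : j < l.length), i ≠ j → l[i] ≠ l[j] := by
    intro i j hi hj hij h
    exact hij ((List.Nodup.getElem_inj_iff h1).1 h)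
  refine ⟨l, h1, h2, ?_, ?_⟩
  · intro i hi
    have h5 := List.isChain_iff_getElem.1 h4 i hi
    have m1 := hmem i (by omega)
    have m2 := hmem (i + 1) hi
    cases c1 : col l[i] <;> cases c2 : col l[i + 1]
    · exact absurd (c1.trans c2.symm) h5
    · exact Or.inr ⟨(hcolB _ m1).1 c1, (hcolR _).1 c2⟩
    · exact Or.inl ⟨(hcolR _).1 c1, (hcolB _ m2).1 c2⟩
    · exact absurd (c1.trans c2.symm) h5
  · intro i j hij hj
    by_cases hji : j = i + 1
    · subst hji
      rw [if_pos rfl]
      exact step_consecutive (harea _ (hmem i (by omega)) _ (hmem (i + 1) (by omega)) _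
        (hmem (i + 1 + 1) hj) (hne _ _ _ _ (by omega)) (hne _ _ _ _ (by omega))
        (hne _ _ _ _ (by omega)))
    · rw [if_neg hji]
      have hstep := h3.get i (by omega)
      refine step_disjoint hstep ⟨j, by omega, by omega, rfl⟩ ⟨j + 1, hj, by omega, rfl⟩ ?_
      exact harea _ (hmem (i + 1) (by omega)) _ (hmem j (by omega)) _ (hmem (j + 1) hj)
        (hne _ _ _ _ (by omega)) (hne _ _ _ _ (by omega)) (hne _ _ _ _ (by omega))

end Pool.Agent.Work.MP_c6c039_lc
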