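import Mathlib

/-!
# Peeling a bicoloured point set along the bridges of a line

Abstract form: points of a type `α` with coordinates `x y : α → ℝ` and colours `col : α → Bool`
(`true` = red).  The line is `x = 0`.
-/

set_option autoImplicit false

namespace Pool.Agent.Work.MP_c6c039_lc

variable {α : Type} [DecidableEq α]

/-- twice the signed area of the triangle `a b c` -/
def ori (x y : α → ℝ) (a b c : α) : ℝ := (x b - x a) * (y c - y a) - (y b - y a) * (x c - x a)

/-- The segment from `a` to `b` leaves the convex hull of `b` and `T` only at `b`, in terms of a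
supporting line. -/
def Step (x y : α → ℝ) (a b : α) (T : Set α) : Prop :=
  ∃ A B C : ℝ, A * x b + B * y b = C ∧
    ((C < A * x a + B * y a ∧ ∀ p ∈ T, A * x p + B * y p ≤ C) ∨
      (C ≤ A * x a + B * y a ∧ ∀ p ∈ T, A * x p + B * y p < C))

/-- lists of points all of whose steps are peeling steps -/
def Peel (x y : α → ℝ) : List α → Prop
  | [] => True
  | [_] => True
  | a :: b :: l => Step x y a b {p | p ∈ l} ∧ Peel x y (b :: l)

/-- The state of the peeling: `c` is the current point, `S` the set of the remaining points. -/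
structure St (x y : α → ℝ) (col : α → Bool) (S : Finset α) (c : α) : Prop where
  nm : c ∉ S
  gp : ∀ a ∈ insert c S, ∀ b ∈ insert c S, ∀ d ∈ insert c S, a ≠ b → b ≠ d → a ≠ d →
    ori x y a b d ≠ 0
  x0 : ∀ a ∈ insert c S, x a ≠ 0
  wl : ∀ a ∈ insert c S, ∀ b ∈ insert c S, x a < 0 → x b < 0 → col a = false → col b = false →
    a = b
  wr : ∀ a ∈ insert c S, ∀ b ∈ insert c S, 0 < x a → 0 < x b → col a = true → col b = true →
    a = b
  cnt : (S.filter fun p => col p ≠ col c).card = (S.filter fun p => col p = col c).card ∨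
    (S.filter fun p => col p ≠ col c).card = (S.filter fun p => col p = col c).card + 1
  ab : ∀ u ∈ S, ∀ v ∈ S, x u < 0 → 0 < x v → (∀ w ∈ S, ori x y u v w ≤ 0) → 0 < ori x y u v c
  ol : S.Nonempty → (∀ p ∈ S, 0 < x p) → x c < 0
  or' : S.Nonempty → (∀ p ∈ S, x p < 0) → 0 < x c
  h1 : col c = false → ∀ e ∈ S, x e < 0 → col e = false →
    ∃ u ∈ S, x u < 0 ∧ u ≠ e ∧ ori x y u c e < 0
  h2 : col c = true → ∀ f ∈ S, 0 < x f → col f = true →
    ∃ v ∈ S, 0 < x v ∧ v ≠ f ∧ ori x y c v f < 0

/-- the conclusion: the remaining points can be appended -/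
def Ext (x y : α → ℝ) (col : α → Bool) (S : Finset α) (c : α) : Prop :=
  ∃ l : List α, l.Nodup ∧ (∀ p, p ∈ l ↔ p ∈ S) ∧ Peel x y (c :: l) ∧
    List.IsChain (fun a b => col a ≠ col b) (c :: l)

section basics

variable {x y : α → ℝ} {col : α → Bool} {S : Finset α} {c : α}

omit [DecidableEq α] in
theorem ori_swap (a b d : α) : ori x y b a d = -ori x y a b d := by
  unfold ori; ring

omit [DecidableEq α] in
theorem ori_rot (a b d : α) : ori x y b d a = ori x y a b d := by
  unfold ori; ring

omit [DecidableEq α] in
theorem ori_swap' (a b d : α) : ori x y a d b = -ori x y a b d := by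
  unfold ori; ring

omit [DecidableEq α] in
theorem ori_mirror (a b d : α) : ori (fun p => -x p) y a b d = -ori x y a b d := by
  unfold ori; ring

omit [DecidableEq α] in
theorem ori_self (a b : α) : ori x y a b b = 0 := by
  unfold ori; ring

omit [DecidableEq α] in
theorem ori_self' (a b : α) : ori x y a b a = 0 := by
  unfold ori; ring

omit [DecidableEq α] in
/-- a peeling step from the signs of an orientation function: `ori a b c` as function of `c` -/
theorem step_of_ori {a b : α} {T : Set α} (p q : α) (s : ℝ)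
    (hb : s * ori x y p q b = 0)
    (h : (0 < s * ori x y p q a ∧ ∀ w ∈ T, s * ori x y p q w ≤ 0) ∨
      (0 ≤ s * ori x y p q a ∧ ∀ w ∈ T, s * ori x y p q w < 0)) : Step x y a b T := by
  refine ⟨-s * (y q - y p), s * (x q - x p),
    s * ((x q - x p) * y p - (y q - y p) * x p), ?_, ?_⟩
  · unfold ori at hb
    linarith
  · unfold ori at h
    rcases h with ⟨h1, h2⟩ | ⟨h1, h2⟩
    · left
      refine ⟨by linarith, fun w hw => ?_⟩
      have := h2 w hw
      linarith
    · right
      refine ⟨by linarith, fun w hw => ?_⟩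
      have := h2 w hw
      linarith

omit [DecidableEq α] in
theorem Step.mirror {a b : α} {T : Set α} (h : Step x y a b T) :
    Step (fun p => -x p) y a b T := by
  obtain ⟨A, B, C, h1, h2⟩ := h
  refine ⟨-A, B, C, by linarith, ?_⟩
  rcases h2 with ⟨h2, h3⟩ | ⟨h2, h3⟩
  · left
    refine ⟨by linarith, fun w hw => ?_⟩
    have := h3 w hw
    linarith
  · right
    refine ⟨by linarith, fun w hw => ?_⟩
    have := h3 w hw
    linarith

omit [DecidableEq α] in
theorem Step.mono {a b : α} {T T' : Set α} (h : Step x y a b T) (hT : T' ⊆ T) :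
    Step x y a b T' := by
  obtain ⟨A, B, C, h1, h2⟩ := h
  refine ⟨A, B, C, h1, ?_⟩
  rcases h2 with ⟨h2, h3⟩ | ⟨h2, h3⟩
  · exact Or.inl ⟨h2, fun w hw => h3 w (hT hw)⟩
  · exact Or.inr ⟨h2, fun w hw => h3 w (hT hw)⟩

omit [DecidableEq α] in
theorem step_empty (a b : α) : Step x y a b ∅ :=
  ⟨0, 0, 0, by simp, Or.inr ⟨by simp, by simp⟩⟩

theorem St.mirror (h : St x y col S c) : St (fun p => -x p) y (fun p => !col p) S c where
  nm := h.nm
  gp := by
    intro a ha b hb d hd h1 h2 h3
    rw [ori_mirror]
    exact neg_ne_zero.2 (h.gp a ha b hb d hd h1 h2 h3)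
  x0 := fun a ha => neg_ne_zero.2 (h.x0 a ha)
  wl := by
    intro a ha b hb h1 h2 h3 h4
    exact h.wr a ha b hb (by linarith) (by linarith) (by simpa using h3) (by simpa using h4)
  wr := by
    intro a ha b hb h1 h2 h3 h4
    exact h.wl a ha b hb (by linarith) (by linarith) (by simpa using h3) (by simpa using h4)
  cnt := by
    have h1 : (S.filter fun p => (!col p) ≠ (!col c)) = S.filter fun p => col p ≠ col c := by
      apply Finset.filter_congr
      intro p _
      simp
    have h2 : (S.filter fun p => (!col p) = (!col c)) = S.filter fun p => col p = col c := by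
      apply Finset.filter_congr
      intro p _
      simp
    rw [h1, h2]
    exact h.cnt
  ab := by
    intro u hu v hv h1 h2 h3
    rw [ori_mirror, ← ori_swap]
    refine h.ab v hv u hu (by linarith) (by linarith) fun w hw => ?_
    have := h3 w hw
    rw [ori_mirror, ← ori_swap] at this
    exact this
  ol := by
    intro h1 h2
    have := h.or' h1 fun p hp => by
      have := h2 p hp
      linarith
    linarith
  or' := by
    intro h1 h2
    have := h.ol h1 fun p hp => by
      have := h2 p hp
      linarith
    linarith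
  h1 := by
    intro h1 e he h2 h3
    obtain ⟨v, hv, hv1, hv2, hv3⟩ := h.h2 (by simpa using h1) e he (by linarith) (by simpa using h3)
    refine ⟨v, hv, by linarith, hv2, ?_⟩
    rw [ori_mirror, ← ori_swap]
    exact hv3
  h2 := by
    intro h1 e he h2 h3
    obtain ⟨v, hv, hv1, hv2, hv3⟩ := h.h1 (by simpa using h1) e he (by linarith) (by simpa using h3)
    refine ⟨v, hv, by linarith, hv2, ?_⟩
    rw [ori_mirror, ← ori_swap]
    exact hv3

end basics

end Pool.Agent.Work.MP_c6c039_lc
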