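import Pool.Agent.Work.MP_c6c039_lc.Peel

set_option autoImplicit false

namespace Pool.Agent.Work.MP_c6c039_lc

variable {α : Type} [DecidableEq α]

section bridge

variable {x y : α → ℝ} {col : α → Bool} {S : Finset α} {c : α}

/-- The bridge of `S` exists. -/
theorem bridge_exists (hx : ∀ p ∈ S, x p ≠ 0) (hl : ∃ p ∈ S, x p < 0) (hr : ∃ p ∈ S, 0 < x p) :
    ∃ u ∈ S, ∃ v ∈ S, x u < 0 ∧ 0 < x v ∧ ∀ w ∈ S, ori x y u v w ≤ 0 := by
  classical
  obtain ⟨l, hl, hl0⟩ := hl
  obtain ⟨r, hr, hr0⟩ := hr
  set L := S.filter fun p => x p < 0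
  set R := S.filter fun p => 0 < x p
  have hne : (L ×ˢ R).Nonempty := ⟨(l, r), by simp [L, R, hl, hl0, hr, hr0]⟩
  obtain ⟨⟨u, v⟩, huv, hmax⟩ := Finset.exists_max_image (L ×ˢ R)
    (fun q => (y q.1 * x q.2 - y q.2 * x q.1) / (x q.2 - x q.1)) hne
  simp only [Finset.mem_product, L, R, Finset.mem_filter] at huv hmax
  obtain ⟨⟨hu, hu0⟩, hv, hv0⟩ := huv
  refine ⟨u, hu, v, hv, hu0, hv0, fun w hw => ?_⟩
  rcases lt_or_gt_of_ne (hx w hw) with hw0 | hw0
  · have h := hmax (w, v) ⟨⟨hw, hw0⟩, hv, hv0⟩
    simp only at h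
    rw [div_le_div_iff₀ (by linarith) (by linarith)] at h
    have : x v * ori x y u v w ≤ 0 := by
      unfold ori
      nlinarith
    by_contra hc
    push Not at hc
    have := mul_pos hv0 hc
    linarith
  · have h := hmax (u, w) ⟨⟨hu, hu0⟩, hw, hw0⟩
    simp only at h
    rw [div_le_div_iff₀ (by linarith) (by linarith)] at h
    have : (-x u) * ori x y u v w ≤ 0 := by
      unfold ori
      nlinarith
    by_contra hc
    push Not at hc
    have := mul_pos (neg_pos.2 hu0) hc
    linarith

omit [DecidableEq α] in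
theorem cross_identity (u v u' v' : α) :
    x v * ori x y u' v' u - x u * ori x y u' v' v + x v' * ori x y u v u' -
      x u' * ori x y u v v' = 0 := by
  unfold ori; ring

/-- After the removal of the left end of the bridge it lies above the next bridge. -/
theorem above_left {u v u' v' : α} (hu0 : x u < 0) (hv0 : 0 < x v) (hu0' : x u' < 0)
    (hv0' : 0 < x v') (h1 : ori x y u v u' ≤ 0) (h2 : ori x y u v v' ≤ 0)
    (h3 : ori x y u' v' v ≤ 0) (h4 : ori x y u' v' u ≠ 0) : 0 < ori x y u' v' u := by
  by_contra hc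
  have h5 : ori x y u' v' u < 0 := lt_of_le_of_ne (not_lt.1 hc) h4
  have := cross_identity (x := x) (y := y) u v u' v'
  have e1 := mul_neg_of_pos_of_neg hv0 h5
  have e2 := mul_nonneg_of_nonpos_of_nonpos hu0.le h3
  have e3 := mul_nonpos_of_nonneg_of_nonpos hv0'.le h1
  have e4 := mul_nonneg_of_nonpos_of_nonpos hu0'.le h2
  linarith

/-- After the removal of the right end of the bridge it lies above the next bridge. -/
theorem above_right {u v u' v' : α} (hu0 : x u < 0) (hv0 : 0 < x v) (hu0' : x u' < 0)
    (hv0' : 0 < x v') (h1 : ori x y u v u' ≤ 0) (h2 : ori x y u v v' ≤ 0)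
    (h3 : ori x y u' v' u ≤ 0) (h4 : ori x y u' v' v ≠ 0) : 0 < ori x y u' v' v := by
  by_contra hc
  have h5 : ori x y u' v' v < 0 := lt_of_le_of_ne (not_lt.1 hc) h4
  have := cross_identity (x := x) (y := y) u v u' v'
  have e1 := mul_nonpos_of_nonneg_of_nonpos hv0.le h3
  have e2 := mul_pos_of_neg_of_neg hu0 h5
  have e3 := mul_nonpos_of_nonneg_of_nonpos hv0'.le h1
  have e4 := mul_nonneg_of_nonpos_of_nonpos hu0'.le h2
  linarith

end bridge

section counts

variable {col : α → Bool} {S : Finset α} {c : α}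

/-- Number of red or blue points. -/
def num (col : α → Bool) (S : Finset α) (b : Bool) : ℕ := (S.filter fun p => col p = b).card

theorem num_erase_same {p : α} (hp : p ∈ S) : num col (S.erase p) (col p) + 1 =
    num col S (col p) := by
  unfold num
  rw [Finset.filter_erase, Finset.card_erase_add_one]
  simp [hp]

theorem num_erase_ne {p : α} {b : Bool} (hb : b ≠ col p) : num col (S.erase p) b =
    num col S b := by
  unfold num
  rw [Finset.filter_erase, Finset.erase_eq_of_notMem]
  simp [Ne.symm hb]

theorem filter_ne (b : Bool) : (S.filter fun p => col p ≠ b).card = num col S (!b) := by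
  unfold num
  congr 1
  apply Finset.filter_congr
  intro p _
  cases b <;> cases col p <;> simp

theorem num_total (b : Bool) : num col S b + num col S (!b) = S.card := by
  unfold num
  have := Finset.card_filter_add_card_filter_not (s := S) (fun p => col p = b)
  rw [← this]
  congr 2
  apply Finset.filter_congr
  intro p _
  cases b <;> cases col p <;> simp

end counts

end Pool.Agent.Work.MP_c6c039_lc
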