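import Pool.Agent.Work.MP_c6c039_lc.Peel2

set_option autoImplicit false
set_option linter.unusedSectionVars false

namespace Pool.Agent.Work.MP_c6c039_lc

variable {α : Type} [DecidableEq α]

/-- The part of `St` which does not depend on the current point. -/
structure Pre (x y : α → ℝ) (col : α → Bool) (S : Finset α) : Prop where
  gp : ∀ a ∈ S, ∀ b ∈ S, ∀ d ∈ S, a ≠ b → b ≠ d → a ≠ d → ori x y a b d ≠ 0
  x0 : ∀ a ∈ S, x a ≠ 0
  wl : ∀ a ∈ S, ∀ b ∈ S, x a < 0 → x b < 0 → col a = false → col b = false → a = b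
  wr : ∀ a ∈ S, ∀ b ∈ S, 0 < x a → 0 < x b → col a = true → col b = true → a = b

section trans

variable {x y : α → ℝ} {col : α → Bool} {S : Finset α} {c : α}

theorem St.pre (h : St x y col S c) : Pre x y col S where
  gp := fun a ha b hb d hd => h.gp a (Finset.mem_insert_of_mem ha) b (Finset.mem_insert_of_mem hb)
    d (Finset.mem_insert_of_mem hd)
  x0 := fun a ha => h.x0 a (Finset.mem_insert_of_mem ha)
  wl := fun a ha b hb => h.wl a (Finset.mem_insert_of_mem ha) b (Finset.mem_insert_of_mem hb)
  wr := fun a ha b hb => h.wr a (Finset.mem_insert_of_mem ha) b (Finset.mem_insert_of_mem hb)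

theorem Pre.mono {T : Finset α} (h : Pre x y col S) (hT : T ⊆ S) : Pre x y col T where
  gp := fun a ha b hb d hd => h.gp a (hT ha) b (hT hb) d (hT hd)
  x0 := fun a ha => h.x0 a (hT ha)
  wl := fun a ha b hb => h.wl a (hT ha) b (hT hb)
  wr := fun a ha b hb => h.wr a (hT ha) b (hT hb)

/-- Go to the left end of the bridge. -/
theorem Pre.left {u v : α} (h : Pre x y col S) (hu : u ∈ S) (hv : v ∈ S) (hxu : x u < 0)
    (hxv : 0 < x v) (hb : ∀ w ∈ S, ori x y u v w ≤ 0)
    (hcnt : num col (S.erase u) (!col u) = num col (S.erase u) (col u) ∨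
      num col (S.erase u) (!col u) = num col (S.erase u) (col u) + 1)
    (h1 : col u = false → ∀ e ∈ S, e ≠ u → x e < 0 → col e = false →
      ∃ w ∈ S, w ≠ u ∧ x w < 0 ∧ w ≠ e ∧ ori x y w u e < 0)
    (h2 : col u = true → ∀ f ∈ S, f ≠ u → 0 < x f → col f = true →
      ∃ w ∈ S, w ≠ u ∧ 0 < x w ∧ w ≠ f ∧ ori x y u w f < 0) :
    St x y col (S.erase u) u where
  nm := Finset.notMem_erase u S
  gp := by rw [Finset.insert_erase hu]; exact h.gp
  x0 := by rw [Finset.insert_erase hu]; exact h.x0
  wl := by rw [Finset.insert_erase hu]; exact h.wl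
  wr := by rw [Finset.insert_erase hu]; exact h.wr
  cnt := by
    rw [filter_ne]
    exact hcnt
  ab := by
    intro u' hu' v' hv' hxu' hxv' hb'
    have hne : u' ≠ v' := by
      rintro rfl
      linarith
    have hvu : v ≠ u := by
      rintro rfl
      linarith
    refine above_left (v := v) hxu hxv hxu' hxv' (hb u' (Finset.mem_of_mem_erase hu'))
      (hb v' (Finset.mem_of_mem_erase hv')) (hb' v (Finset.mem_erase.2 ⟨hvu, hv⟩)) ?_
    exact h.gp _ (Finset.mem_of_mem_erase hu') _ (Finset.mem_of_mem_erase hv') _ hu hne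
      (Finset.ne_of_mem_erase hv') (Finset.ne_of_mem_erase hu')
  ol := fun _ _ => hxu
  or' := by
    intro _ h'
    have hvu : v ≠ u := by
      rintro rfl
      linarith
    have := h' v (Finset.mem_erase.2 ⟨hvu, hv⟩)
    linarith
  h1 := by
    intro hc e he hxe hce
    obtain ⟨w, hw, a1, a2, a3, a4⟩ := h1 hc e (Finset.mem_of_mem_erase he)
      (Finset.ne_of_mem_erase he) hxe hce
    exact ⟨w, Finset.mem_erase.2 ⟨a1, hw⟩, a2, a3, a4⟩
  h2 := by
    intro hc e he hxe hce
    obtain ⟨w, hw, a1, a2, a3, a4⟩ := h2 hc e (Finset.mem_of_mem_erase he)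
      (Finset.ne_of_mem_erase he) hxe hce
    exact ⟨w, Finset.mem_erase.2 ⟨a1, hw⟩, a2, a3, a4⟩

/-- Go to the right end of the bridge. -/
theorem Pre.right {u v : α} (h : Pre x y col S) (hu : u ∈ S) (hv : v ∈ S) (hxu : x u < 0)
    (hxv : 0 < x v) (hb : ∀ w ∈ S, ori x y u v w ≤ 0)
    (hcnt : num col (S.erase v) (!col v) = num col (S.erase v) (col v) ∨
      num col (S.erase v) (!col v) = num col (S.erase v) (col v) + 1)
    (h1 : col v = false → ∀ e ∈ S, e ≠ v → x e < 0 → col e = false →
      ∃ w ∈ S, w ≠ v ∧ x w < 0 ∧ w ≠ e ∧ ori x y w v e < 0)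
    (h2 : col v = true → ∀ f ∈ S, f ≠ v → 0 < x f → col f = true →
      ∃ w ∈ S, w ≠ v ∧ 0 < x w ∧ w ≠ f ∧ ori x y v w f < 0) :
    St x y col (S.erase v) v where
  nm := Finset.notMem_erase v S
  gp := by rw [Finset.insert_erase hv]; exact h.gp
  x0 := by rw [Finset.insert_erase hv]; exact h.x0
  wl := by rw [Finset.insert_erase hv]; exact h.wl
  wr := by rw [Finset.insert_erase hv]; exact h.wr
  cnt := by
    rw [filter_ne]
    exact hcnt
  ab := by
    intro u' hu' v' hv' hxu' hxv' hb'
    have hne : u' ≠ v' := by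
      rintro rfl
      linarith
    have hvu : u ≠ v := by
      rintro rfl
      linarith
    refine above_right (u := u) hxu hxv hxu' hxv' (hb u' (Finset.mem_of_mem_erase hu'))
      (hb v' (Finset.mem_of_mem_erase hv')) (hb' u (Finset.mem_erase.2 ⟨hvu, hu⟩)) ?_
    exact h.gp _ (Finset.mem_of_mem_erase hu') _ (Finset.mem_of_mem_erase hv') _ hv hne
      (Finset.ne_of_mem_erase hv') (Finset.ne_of_mem_erase hu')
  ol := by
    intro _ h'
    have hvu : u ≠ v := by
      rintro rfl
      linarith
    have := h' u (Finset.mem_erase.2 ⟨hvu, hu⟩)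
    linarith
  or' := fun _ _ => hxv
  h1 := by
    intro hc e he hxe hce
    obtain ⟨w, hw, a1, a2, a3, a4⟩ := h1 hc e (Finset.mem_of_mem_erase he)
      (Finset.ne_of_mem_erase he) hxe hce
    exact ⟨w, Finset.mem_erase.2 ⟨a1, hw⟩, a2, a3, a4⟩
  h2 := by
    intro hc e he hxe hce
    obtain ⟨w, hw, a1, a2, a3, a4⟩ := h2 hc e (Finset.mem_of_mem_erase he)
      (Finset.ne_of_mem_erase he) hxe hce
    exact ⟨w, Finset.mem_erase.2 ⟨a1, hw⟩, a2, a3, a4⟩

/-- counts after a step to a point of the other colour -/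
theorem cnt_step (h : num col S (!col c) = num col S (col c) ∨
      num col S (!col c) = num col S (col c) + 1) {p : α} (hp : p ∈ S) (hpc : col p ≠ col c) :
    num col (S.erase p) (!col p) = num col (S.erase p) (col p) ∨
      num col (S.erase p) (!col p) = num col (S.erase p) (col p) + 1 := by
  have h1 := num_erase_same (col := col) hp
  have h2 : num col (S.erase p) (!col p) = num col S (!col p) :=
    num_erase_ne (by cases col p <;> simp)
  have h3 : col p = !col c := by
    cases h4 : col p <;> cases h5 : col c <;> simp_all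
  have h4 : (!col p) = col c := by
    rw [h3]; simp
  rw [h2, h4]
  rw [← h3] at h
  omega

theorem St.cnt' (h : St x y col S c) : num col S (!col c) = num col S (col c) ∨
      num col S (!col c) = num col S (col c) + 1 := by
  have := h.cnt
  rw [filter_ne] at this
  exact this

/-- The exceptional step: the bridge is `e v`, both blue, the current point is blue. -/
theorem fail1 (h : St x y col S c) (hc : col c = false) {e v : α} (he : e ∈ S) (hv : v ∈ S)
    (hxe : x e < 0) (hxv : 0 < x v) (hb : ∀ w ∈ S, ori x y e v w ≤ 0) (hce : col e = false) :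
    ∃ t ∈ S, t ≠ e ∧ col t = true ∧ Step x y c t {p | p ∈ S.erase t} ∧
      Step x y t e {p | p ∈ (S.erase t).erase e} ∧ St x y col ((S.erase t).erase e) e := by
  classical
  have hcm : c ∈ insert c S := Finset.mem_insert_self c S
  have hm : ∀ {p}, p ∈ S → p ∈ insert c S := fun hp => Finset.mem_insert_of_mem hp
  have hcS : ∀ {p}, p ∈ S → p ≠ c := fun hp h' => h.nm (h' ▸ hp)
  have hev : e ≠ v := by
    rintro rfl
    linarith
  -- c is on the right
  have hxc : 0 < x c := by
    rcases lt_or_gt_of_ne (h.x0 c hcm) with h' | h'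
    · exact absurd (h.wl e (hm he) c hcm hxe h' hce hc) (hcS he)
    · exact h'
  obtain ⟨u, hu, hxu, hue, huc⟩ := h.h1 hc e he hxe hce
  have habc : 0 < ori x y e v c := h.ab e he v hv hxe hxv hb
  have huv : u ≠ v := by
    rintro rfl
    linarith
  have hG : ∀ p ∈ S, p ≠ e → p ≠ v → ori x y e v p < 0 := fun p hp h1 h2 =>
    lt_of_le_of_ne (hb p hp) (h.gp e (hm he) v (hm hv) p (hm hp) hev h2.symm h1.symm)
  have hGu : ori x y e v u < 0 := hG u hu hue huv
  -- u is to the left of e
  have hxue : x u < x e := by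
    by_contra hcon
    push Not at hcon
    have hid : (x c - x e) * ori x y e v u + (x e - x u) * ori x y e v c +
        (x v - x e) * ori x y u c e = 0 := by
      unfold ori; ring
    have e1 := mul_neg_of_pos_of_neg (show 0 < x c - x e by linarith) hGu
    have e2 := mul_nonpos_of_nonpos_of_nonneg (show x e - x u ≤ 0 by linarith) habc.le
    have e3 := mul_neg_of_pos_of_neg (show 0 < x v - x e by linarith) huc
    linarith
  -- the left neighbour of e on the hull
  obtain ⟨t, ht, htmin⟩ := Finset.exists_min_image (S.filter fun p => x p < x e)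
    (fun p => (y e - y p) / (x e - x p)) ⟨u, by simp [hu, hxue]⟩
  simp only [Finset.mem_filter] at ht htmin
  obtain ⟨htS, hxt⟩ := ht
  have hte : t ≠ e := by
    rintro rfl
    exact lt_irrefl _ hxt
  have htv : t ≠ v := by
    rintro rfl
    linarith
  have hGt : ori x y e v t < 0 := hG t htS hte htv
  have hF : ∀ p ∈ S, ori x y t e p ≤ 0 := by
    intro p hp
    by_cases hpe : x p < x e
    · have := htmin p ⟨hp, hpe⟩
      rw [div_le_div_iff₀ (by linarith) (by linarith)] at this
      unfold ori
      nlinarith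
    · push Not at hpe
      have hid : (x v - x e) * ori x y t e p = (x p - x e) * ori x y e v t +
          (x e - x t) * ori x y e v p := by
        unfold ori; ring
      have e1 := mul_nonpos_of_nonneg_of_nonpos (show 0 ≤ x p - x e by linarith) hGt.le
      have e2 := mul_nonpos_of_nonneg_of_nonpos (show 0 ≤ x e - x t by linarith) (hb p hp)
      by_contra hcon
      push Not at hcon
      have e3 := mul_pos (show 0 < x v - x e by linarith) hcon
      linarith
  have hF' : ∀ p ∈ S, p ≠ t → p ≠ e → ori x y t e p < 0 := fun p hp h1 h2 =>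
    lt_of_le_of_ne (hF p hp) (h.gp t (hm htS) e (hm he) p (hm hp) hte h2.symm h1.symm)
  -- c is above the line t e
  have hFc : 0 < ori x y t e c := by
    by_contra hcon
    push Not at hcon
    have hlt : ori x y t e c < 0 := lt_of_le_of_ne hcon
      (h.gp t (hm htS) e (hm he) c hcm hte (hcS he) (hcS htS))
    have hid : (x c - x e) * ori x y t e u + (x e - x u) * ori x y t e c +
        (x e - x t) * ori x y u c e = 0 := by
      unfold ori; ring
    have e1 := mul_nonpos_of_nonneg_of_nonpos (show 0 ≤ x c - x e by linarith) (hF u hu)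
    have e2 := mul_neg_of_pos_of_neg (show 0 < x e - x u by linarith) hlt
    have e3 := mul_neg_of_pos_of_neg (show 0 < x e - x t by linarith) huc
    linarith
  have hct : col t = true := by
    by_contra h'
    have h' : col t = false := by simpa using h'
    exact hte (h.wl t (hm htS) e (hm he) (by linarith) hxe h' hce)
  refine ⟨t, htS, hte, hct, ?_, ?_, ?_⟩
  · refine step_of_ori t e 1 (by rw [ori_self', mul_zero]) (Or.inl ⟨by linarith, ?_⟩)
    intro w hw
    have := hF w (Finset.mem_of_mem_erase hw)
    linarith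
  · refine step_of_ori t e 1 (by rw [ori_self, mul_zero]) (Or.inr ⟨by rw [ori_self', mul_zero], ?_⟩)
    intro w hw
    have hw1 := Finset.mem_of_mem_erase hw
    have := hF' w (Finset.mem_of_mem_erase hw1) (Finset.ne_of_mem_erase hw1)
      (Finset.ne_of_mem_erase hw)
    linarith
  · have hpre : Pre x y col (S.erase t) := h.pre.mono (Finset.erase_subset t S)
    have heT : e ∈ S.erase t := Finset.mem_erase.2 ⟨hte.symm, he⟩
    have hvT : v ∈ S.erase t := Finset.mem_erase.2 ⟨htv.symm, hv⟩
    refine hpre.left heT hvT hxe hxv (fun w hw => hb w (Finset.mem_of_mem_erase hw)) ?_ ?_ ?_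
    · have c1 := cnt_step h.cnt' htS (by rw [hct, hc]; simp)
      exact cnt_step c1 heT (by rw [hct, hce]; simp)
    · intro _ e' he' hne hxe' hce'
      exact absurd (hpre.wl e' he' e heT hxe' hxe hce' hce) hne
    · intro h'
      rw [hce] at h'
      exact absurd h' (by simp)

end trans

end Pool.Agent.Work.MP_c6c039_lc
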