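import Pool.Agent.Work.MP_c6c039_lc.Peel3

set_option autoImplicit false
set_option linter.unusedSectionVars false

namespace Pool.Agent.Work.MP_c6c039_lc

variable {α : Type} [DecidableEq α]

section ends

variable {x y : α → ℝ} {col : α → Bool} {S : Finset α} {c : α}

theorem ext_nil (h : S = ∅) : Ext x y col S c :=
  ⟨[], List.nodup_nil, by simp [h], trivial, by simp⟩

theorem ext_cons {p : α} (hp : p ∈ S) (hc : col p ≠ col c)
    (hs : Step x y c p {q | q ∈ S.erase p}) (h : Ext x y col (S.erase p) p) :
    Ext x y col S c := by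
  obtain ⟨l, h1, h2, h3, h4⟩ := h
  refine ⟨p :: l, ?_, ?_, ⟨hs.mono ?_, h3⟩, ?_⟩
  · rw [List.nodup_cons]
    refine ⟨fun hpl => ?_, h1⟩
    exact (Finset.notMem_erase p S) ((h2 p).1 hpl)
  · intro q
    rw [List.mem_cons, h2]
    constructor
    · rintro (rfl | hq)
      · exact hp
      · exact Finset.mem_of_mem_erase hq
    · intro hq
      by_cases hqp : q = p
      · exact Or.inl hqp
      · exact Or.inr (Finset.mem_erase.2 ⟨hqp, hq⟩)
  · intro q hq
    exact (h2 q).1 hq
  · rw [List.isChain_cons_cons]
    exact ⟨hc.symm, h4⟩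

/-- At most two points left. -/
theorem ext_small (hcS : c ∉ S)
    (gp : ∀ a ∈ insert c S, ∀ b ∈ insert c S, ∀ d ∈ insert c S, a ≠ b → b ≠ d → a ≠ d →
      ori x y a b d ≠ 0)
    (hcnt : num col S (!col c) = num col S (col c) ∨
      num col S (!col c) = num col S (col c) + 1) (hS : S.card ≤ 2) : Ext x y col S c := by
  have htot := num_total (col := col) (S := S) (col c)
  have hex : S.card ≠ 0 → ∃ p ∈ S, col p ≠ col c := by
    intro h0
    have : 0 < num col S (!col c) := by omega
    unfold num at this
    obtain ⟨p, hp⟩ := Finset.card_pos.1 this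
    rw [Finset.mem_filter] at hp
    refine ⟨p, hp.1, ?_⟩
    rw [hp.2]
    cases col c <;> simp
  rcases Nat.lt_or_ge S.card 1 with h0 | h0
  · exact ext_nil (Finset.card_eq_zero.1 (by omega))
  obtain ⟨p, hp, hpc⟩ := hex (by omega)
  have hcard : (S.erase p).card = S.card - 1 := Finset.card_erase_of_mem hp
  rcases Nat.lt_or_ge S.card 2 with h1 | h1
  · have hemp : S.erase p = ∅ := Finset.card_eq_zero.1 (by omega)
    refine ext_cons hp hpc ?_ (ext_nil hemp)
    refine (step_empty c p).mono ?_
    intro q hq
    rw [hemp] at hq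
    exact absurd hq (Finset.notMem_empty q)
  · obtain ⟨q, hq⟩ := Finset.card_eq_one.1 (show (S.erase p).card = 1 by omega)
    have hqm : q ∈ S.erase p := by rw [hq]; exact Finset.mem_singleton_self q
    have hqS := Finset.mem_of_mem_erase hqm
    have hqp := Finset.ne_of_mem_erase hqm
    have hqc : col q ≠ col p := by
      have c1 := cnt_step hcnt hp hpc
      have htot' := num_total (col := col) (S := S.erase p) (col p)
      have : 0 < num col (S.erase p) (!col p) := by omega
      unfold num at this
      obtain ⟨r, hr⟩ := Finset.card_pos.1 this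
      rw [Finset.mem_filter, hq, Finset.mem_singleton] at hr
      rw [← hr.1, hr.2]
      cases col p <;> simp
    refine ext_cons hp hpc ?_ (ext_cons hqm hqc ?_ (ext_nil ?_))
    · have hne : ori x y c p q ≠ 0 := gp c (Finset.mem_insert_self c S) p
        (Finset.mem_insert_of_mem hp) q (Finset.mem_insert_of_mem hqS)
        (fun h' => hcS (h' ▸ hp)) hqp.symm (fun h' => hcS (h' ▸ hqS))
      refine step_of_ori c p (-ori x y c p q) (by rw [ori_self, mul_zero])
        (Or.inr ⟨by rw [ori_self', mul_zero], ?_⟩)
      intro w hw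
      have hw' : w ∈ S.erase p := hw
      rw [hq, Finset.mem_singleton] at hw'
      rw [hw']
      have := mul_self_pos.2 hne
      linarith
    · refine (step_empty p q).mono ?_
      intro r hr
      have hr' : r ∈ (S.erase p).erase q := hr
      rw [hq] at hr'
      simp at hr'
    · rw [hq]
      simp

/-- Three points left, all on the other side of the line. -/
theorem ext_three (h : St x y col S c) (hr : ∀ p ∈ S, 0 < x p) (hxc : x c < 0)
    (hS : S.card = 3) : Ext x y col S c := by
  classical
  have hcm : c ∈ insert c S := Finset.mem_insert_self c S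
  have hm : ∀ {p}, p ∈ S → p ∈ insert c S := fun hp => Finset.mem_insert_of_mem hp
  have hcS : ∀ {p}, p ∈ S → p ≠ c := fun hp h' => h.nm (h' ▸ hp)
  have hne : S.Nonempty := Finset.card_pos.1 (by omega)
  have hred : ∀ p ∈ S, ∀ q ∈ S, col p = true → col q = true → p = q := fun p hp q hq h1 h2 =>
    h.wr p (hm hp) q (hm hq) (hr p hp) (hr q hq) h1 h2
  have hredc : num col S true ≤ 1 := by
    unfold num
    rw [Finset.card_le_one]
    intro a ha b hb
    rw [Finset.mem_filter] at ha hb
    exact hred a ha.1 b hb.1 ha.2 hb.2
  have htot := num_total (col := col) (S := S) true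
  simp only [Bool.not_true] at htot
  have hc : col c = true := by
    by_contra h'
    have h' : col c = false := by simpa using h'
    have := h.cnt'
    rw [h'] at this
    simp only [Bool.not_false] at this
    omega
  -- a visible blue point
  have key : ∀ p ∈ S, col p = false → (∃ s : ℝ, ∀ q ∈ S, q ≠ p → s * ori x y c p q < 0) →
      Ext x y col S c := by
    intro p hp hpc ⟨s, hs⟩
    have hpc' : col p ≠ col c := by rw [hpc, hc]; simp
    refine ext_cons hp hpc' ?_ (ext_small (Finset.notMem_erase p S) ?_ (cnt_step h.cnt' hp hpc')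
      ?_)
    · refine step_of_ori c p s (by rw [ori_self, mul_zero])
        (Or.inr ⟨by rw [ori_self', mul_zero], ?_⟩)
      intro w hw
      exact hs w (Finset.mem_of_mem_erase hw) (Finset.ne_of_mem_erase hw)
    · rw [Finset.insert_erase hp]
      exact h.pre.gp
    · rw [Finset.card_erase_of_mem hp]
      omega
  obtain ⟨p, hp, hpmax⟩ := Finset.exists_max_image S (fun p => (y p - y c) / (x p - x c)) hne
  obtain ⟨q, hq, hqmin⟩ := Finset.exists_min_image S (fun p => (y p - y c) / (x p - x c)) hne
  have hp' : ∀ w ∈ S, w ≠ p → 1 * ori x y c p w < 0 := by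
    intro w hw hwp
    have h1 := hpmax w hw
    have := hr w hw
    have := hr p hp
    rw [div_le_div_iff₀ (by linarith) (by linarith)] at h1
    rw [one_mul]
    refine lt_of_le_of_ne ?_ (h.gp c hcm p (hm hp) w (hm hw) (hcS hp).symm hwp.symm (hcS hw).symm)
    unfold ori
    linarith
  have hq' : ∀ w ∈ S, w ≠ q → (-1) * ori x y c q w < 0 := by
    intro w hw hwq
    have h1 := hqmin w hw
    have := hr w hw
    have := hr q hq
    rw [div_le_div_iff₀ (by linarith) (by linarith)] at h1
    have h2 := h.gp c hcm q (hm hq) w (hm hw) (hcS hq).symm hwq.symm (hcS hw).symm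
    have h3 : 0 ≤ ori x y c q w := by
      unfold ori
      linarith
    have := lt_of_le_of_ne h3 h2.symm
    linarith
  cases hpc : col p
  · exact key p hp hpc ⟨1, hp'⟩
  cases hqc : col q
  · exact key q hq hqc ⟨-1, hq'⟩
  -- both are the only red point: impossible
  have hpq : p = q := hred p hp q hq hpc hqc
  subst hpq
  exfalso
  have : (S.erase p).Nonempty := by
    apply Finset.card_pos.1
    rw [Finset.card_erase_of_mem hp]
    omega
  obtain ⟨w, hw⟩ := this
  have h1 := hp' w (Finset.mem_of_mem_erase hw) (Finset.ne_of_mem_erase hw)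
  have h2 := hq' w (Finset.mem_of_mem_erase hw) (Finset.ne_of_mem_erase hw)
  linarith

/-- One side is exhausted. -/
theorem ext_right (h : St x y col S c) (hr : ∀ p ∈ S, 0 < x p) : Ext x y col S c := by
  rcases S.eq_empty_or_nonempty with he | hne
  · exact ext_nil he
  have hxc := h.ol hne hr
  have hm : ∀ {p}, p ∈ S → p ∈ insert c S := fun hp => Finset.mem_insert_of_mem hp
  have hredc : num col S true ≤ 1 := by
    unfold num
    rw [Finset.card_le_one]
    intro a ha b hb
    rw [Finset.mem_filter] at ha hb
    exact h.wr a (hm ha.1) b (hm hb.1) (hr a ha.1) (hr b hb.1) ha.2 hb.2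
  have htot := num_total (col := col) (S := S) true
  simp only [Bool.not_true] at htot
  have hcard : S.card ≤ 3 := by
    have := h.cnt'
    cases hc : col c
    · rw [hc] at this
      simp only [Bool.not_false] at this
      omega
    · rw [hc] at this
      simp only [Bool.not_true] at this
      omega
  rcases Nat.lt_or_ge S.card 3 with h3 | h3
  · exact ext_small h.nm h.gp h.cnt' (by omega)
  · exact ext_three h hr hxc (by omega)

theorem Peel.mirror {l : List α} (h : Peel x y l) : Peel (fun p => -x p) y l := by
  induction l with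
  | nil => trivial
  | cons a l ih =>
    cases l with
    | nil => trivial
    | cons b l => exact ⟨h.1.mirror, ih h.2⟩

theorem Ext.mirror (h : Ext x y col S c) : Ext (fun p => -x p) y (fun p => !col p) S c := by
  obtain ⟨l, h1, h2, h3, h4⟩ := h
  refine ⟨l, h1, h2, h3.mirror, ?_⟩
  refine h4.imp ?_
  intro a b hab
  simpa using hab

theorem mirror_mirror (x : α → ℝ) : (fun p => -(fun p => -x p) p) = x := by
  funext p
  simp

theorem col_mirror (col : α → Bool) : (fun p => !(fun p => !col p) p) = col := by
  funext p
  simp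

theorem Ext.of_mirror (h : Ext (fun p => -x p) y (fun p => !col p) S c) : Ext x y col S c := by
  have := h.mirror
  simp only [neg_neg, Bool.not_not] at this
  exact this

theorem Step.of_mirror {a b : α} {T : Set α} (h : Step (fun p => -x p) y a b T) :
    Step x y a b T := by
  have := h.mirror
  simp only [neg_neg] at this
  exact this

theorem St.of_mirror (h : St (fun p => -x p) y (fun p => !col p) S c) : St x y col S c := by
  have := h.mirror
  simp only [neg_neg, Bool.not_not] at this
  exact this

theorem ext_left (h : St x y col S c) (hr : ∀ p ∈ S, x p < 0) : Ext x y col S c :=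
  (ext_right h.mirror fun p hp => by have := hr p hp; linarith).of_mirror

/-- The main induction. -/
theorem ext_main : ∀ (n : ℕ) (x y : α → ℝ) (col : α → Bool) (S : Finset α) (c : α),
    S.card = n → St x y col S c → Ext x y col S c := by
  intro n
  induction n using Nat.strong_induction_on with
  | _ n ih =>
  intro x y col S c hn h
  have hm : ∀ {p}, p ∈ S → p ∈ insert c S := fun hp => Finset.mem_insert_of_mem hp
  have hcS : ∀ {p}, p ∈ S → p ≠ c := fun hp h' => h.nm (h' ▸ hp)
  by_cases hl : ∃ p ∈ S, x p < 0
  swap
  · push Not at hl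
    exact ext_right h fun p hp => lt_of_le_of_ne (hl p hp) (h.x0 p (hm hp)).symm
  by_cases hr : ∃ p ∈ S, 0 < x p
  swap
  · push Not at hr
    exact ext_left h fun p hp => lt_of_le_of_ne (hr p hp) (h.x0 p (hm hp))
  obtain ⟨u, hu, v, hv, hxu, hxv, hb⟩ := bridge_exists (fun p hp => h.x0 p (hm hp)) hl hr
  have huv : u ≠ v := by
    rintro rfl
    linarith
  have habc : 0 < ori x y u v c := h.ab u hu v hv hxu hxv hb
  have hG : ∀ p ∈ S, p ≠ u → p ≠ v → ori x y u v p < 0 := fun p hp h1 h2 =>
    lt_of_le_of_ne (hb p hp) (h.gp u (hm hu) v (hm hv) p (hm hp) huv h2.symm h1.symm)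
  have hcard : ∀ {p}, p ∈ S → (S.erase p).card < n := fun hp => by
    have h1 := Finset.card_erase_of_mem hp
    have h2 := Finset.card_pos.2 ⟨_, hp⟩
    omega
  have stepu : Step x y c u {q | q ∈ S.erase u} := by
    refine step_of_ori u v 1 (by rw [ori_self', mul_zero]) (Or.inl ⟨by linarith, ?_⟩)
    intro w hw
    have := hb w (Finset.mem_of_mem_erase hw)
    linarith
  have stepv : Step x y c v {q | q ∈ S.erase v} := by
    refine step_of_ori u v 1 (by rw [ori_self, mul_zero]) (Or.inl ⟨by linarith, ?_⟩)
    intro w hw
    have := hb w (Finset.mem_of_mem_erase hw)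
    linarith
  cases hcu : col u <;> cases hcv : col v <;> cases hcc : col c
  · -- u blue, v blue, c blue: the exceptional step
    obtain ⟨t, ht, hte, hct, hs1, hs2, hst⟩ := fail1 h hcc hu hv hxu hxv hb hcu
    refine ext_cons ht (by rw [hct, hcc]; simp) hs1 (ext_cons (Finset.mem_erase.2 ⟨hte.symm, hu⟩)
      (by rw [hcu, hct]; simp) hs2 (ih _ ?_ x y col _ u rfl hst))
    have h1 := Finset.card_erase_le (s := S.erase t) (a := u)
    have h2 := hcard ht
    omega
  · -- u blue, v blue, c red: go to u
    have hne : col u ≠ col c := by rw [hcu, hcc]; simp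
    refine ext_cons hu hne stepu (ih _ (hcard hu) x y col _ u rfl
      (h.pre.left hu hv hxu hxv hb (cnt_step h.cnt' hu hne) ?_ ?_))
    · intro _ e he heu hxe hce
      exact absurd (h.pre.wl e he u hu hxe hxu hce hcu) heu
    · intro h'
      rw [hcu] at h'
      exact absurd h' (by simp)
  · -- u blue, v red, c blue: go to v
    have hne : col v ≠ col c := by rw [hcv, hcc]; simp
    refine ext_cons hv hne stepv (ih _ (hcard hv) x y col _ v rfl
      (h.pre.right hu hv hxu hxv hb (cnt_step h.cnt' hv hne) ?_ ?_))
    · intro h'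
      rw [hcv] at h'
      exact absurd h' (by simp)
    · intro _ f hf hfv hxf hcf
      exact absurd (h.pre.wr f hf v hv hxf hxv hcf hcv) hfv
  · -- u blue, v red, c red: go to u
    have hne : col u ≠ col c := by rw [hcu, hcc]; simp
    refine ext_cons hu hne stepu (ih _ (hcard hu) x y col _ u rfl
      (h.pre.left hu hv hxu hxv hb (cnt_step h.cnt' hu hne) ?_ ?_))
    · intro _ e he heu hxe hce
      exact absurd (h.pre.wl e he u hu hxe hxu hce hcu) heu
    · intro h'
      rw [hcu] at h'
      exact absurd h' (by simp)
  · -- u red, v blue, c blue: go to u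
    have hne : col u ≠ col c := by rw [hcu, hcc]; simp
    refine ext_cons hu hne stepu (ih _ (hcard hu) x y col _ u rfl
      (h.pre.left hu hv hxu hxv hb (cnt_step h.cnt' hu hne) ?_ ?_))
    · intro h'
      rw [hcu] at h'
      exact absurd h' (by simp)
    · intro _ f hf hfu hxf hcf
      have hfv : f ≠ v := by
        rintro rfl
        rw [hcv] at hcf
        exact absurd hcf (by simp)
      exact ⟨v, hv, huv.symm, hxv, hfv.symm, hG f hf hfu hfv⟩
  · -- u red, v blue, c red: go to v
    have hne : col v ≠ col c := by rw [hcv, hcc]; simp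
    refine ext_cons hv hne stepv (ih _ (hcard hv) x y col _ v rfl
      (h.pre.right hu hv hxu hxv hb (cnt_step h.cnt' hv hne) ?_ ?_))
    · intro _ e he hev hxe hce
      have heu : e ≠ u := by
        rintro rfl
        rw [hcu] at hce
        exact absurd hce (by simp)
      exact ⟨u, hu, huv, hxu, heu.symm, hG e he heu hev⟩
    · intro h'
      rw [hcv] at h'
      exact absurd h' (by simp)
  · -- u red, v red, c blue: go to v
    have hne : col v ≠ col c := by rw [hcv, hcc]; simp
    refine ext_cons hv hne stepv (ih _ (hcard hv) x y col _ v rfl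
      (h.pre.right hu hv hxu hxv hb (cnt_step h.cnt' hv hne) ?_ ?_))
    · intro h'
      rw [hcv] at h'
      exact absurd h' (by simp)
    · intro _ f hf hfv hxf hcf
      exact absurd (h.pre.wr f hf v hv hxf hxv hcf hcv) hfv
  · -- u red, v red, c red: the mirrored exceptional step
    obtain ⟨t, ht, hte, hct, hs1, hs2, hst⟩ := fail1 (e := v) (v := u) h.mirror (by simp [hcc]) hv
      hu (by linarith) (by linarith)
      (fun w hw => by rw [ori_mirror, ← ori_swap]; exact hb w hw) (by simp [hcv])
    have hct' : col t = false := by simpa using hct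
    refine ext_cons ht (by rw [hct', hcc]; simp) hs1.of_mirror
      (ext_cons (Finset.mem_erase.2 ⟨hte.symm, hv⟩) (by rw [hcv, hct']; simp) hs2.of_mirror
      (ih _ ?_ x y col _ v rfl hst.of_mirror))
    have h1 := Finset.card_erase_le (s := S.erase t) (a := v)
    have h2 := hcard ht
    omega

end ends

end Pool.Agent.Work.MP_c6c039_lc
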